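import Pool.Agent.H627R2.PccStruct

/-!
# Averaging operators on the cube and the main induction
-/

set_option autoImplicit false

namespace Pool.Agent.H627R2.Pcc

open Finset
open scoped BigOperators

variable {ι : Type*} [DecidableEq ι] [Fintype ι]

/-- the involution `(y, z) ↦ (K.piecewise y z, K.piecewise z y)`. -/
def swapEquiv (K : Finset ι) :
    ((ι → ZMod 2) × (ι → ZMod 2)) ≃ ((ι → ZMod 2) × (ι → ZMod 2)) :=
  Function.Involutive.toPerm (fun p => (K.piecewise p.1 p.2, K.piecewise p.2 p.1)) (by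
    rintro ⟨y, z⟩
    ext i
    · by_cases h : i ∈ K <;> simp [h]
    · by_cases h : i ∈ K <;> simp [h])

lemma expect_piecewise (K : Finset ι) (F : (ι → ZMod 2) → ℝ) :
    𝔼 y : ι → ZMod 2, 𝔼 z : ι → ZMod 2, F (K.piecewise y z) = 𝔼 z : ι → ZMod 2, F z := by
  rw [← Finset.expect_product' Finset.univ Finset.univ
    (fun y z : ι → ZMod 2 => F (K.piecewise y z)), Finset.univ_product_univ]
  have h : 𝔼 p : (ι → ZMod 2) × (ι → ZMod 2), F (K.piecewise p.1 p.2)
      = 𝔼 p : (ι → ZMod 2) × (ι → ZMod 2), F p.1 :=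
    Fintype.expect_equiv (swapEquiv K) _ _ (fun p => rfl)
  rw [h, ← Finset.univ_product_univ, Finset.expect_product' Finset.univ Finset.univ
    (fun y _ : ι → ZMod 2 => F y)]
  refine Finset.expect_congr rfl fun y _ => ?_
  exact Fintype.expect_const (F y)

lemma expect_piecewise' (K : Finset ι) (F : (ι → ZMod 2) → ℝ) :
    𝔼 z : ι → ZMod 2, 𝔼 y : ι → ZMod 2, F (K.piecewise y z) = 𝔼 z : ι → ZMod 2, F z := by
  rw [Finset.expect_comm]
  exact expect_piecewise K F

/-- average over the coordinates in `J` -/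
noncomputable def av (J : Finset ι) (p : (ι → ZMod 2) → ℝ) (x : ι → ZMod 2) : ℝ :=
  𝔼 z : ι → ZMod 2, p (J.piecewise z x)

lemma av_sub (J : Finset ι) (p q : (ι → ZMod 2) → ℝ) (x : ι → ZMod 2) :
    av J (fun y => p y - q y) x = av J p x - av J q x := by
  unfold av
  rw [Finset.expect_sub_distrib]

lemma av_av (J C : Finset ι) (p : (ι → ZMod 2) → ℝ) (x : ι → ZMod 2) :
    av J (av C p) x = av (J ∪ C) p x := by
  unfold av
  rw [← expect_piecewise' C (fun v => p ((J ∪ C).piecewise v x))]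
  refine Finset.expect_congr rfl fun z _ => Finset.expect_congr rfl fun w _ => ?_
  congr 1
  funext i
  by_cases hC : i ∈ C
  · simp [hC]
  · by_cases hJ : i ∈ J <;> simp [hC, hJ]

@[simp] lemma av_empty (p : (ι → ZMod 2) → ℝ) (x : ι → ZMod 2) : av ∅ p x = p x := by
  unfold av
  simp only [Finset.piecewise_empty]
  exact Fintype.expect_const (p x)

lemma av_piecewise (J : Finset ι) (p : (ι → ZMod 2) → ℝ) (a z : ι → ZMod 2) :
    av J p (J.piecewise a z) = av J p z := by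
  unfold av
  refine Finset.expect_congr rfl fun w _ => ?_
  congr 1
  funext i
  by_cases hJ : i ∈ J <;> simp [hJ]

lemma expect_abs_av_le (J : Finset ι) (u : (ι → ZMod 2) → ℝ) :
    𝔼 x : ι → ZMod 2, |av J u x| ≤ 𝔼 x : ι → ZMod 2, |u x| := by
  calc 𝔼 x : ι → ZMod 2, |av J u x|
      ≤ 𝔼 x : ι → ZMod 2, 𝔼 z : ι → ZMod 2, |u (J.piecewise z x)| :=
        Finset.expect_le_expect fun x _ => Finset.abs_expect_le _ _
    _ = 𝔼 x : ι → ZMod 2, |u x| := expect_piecewise' J (fun y => |u y|)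

lemma expect_abs_av_sub_le {ε : ℝ} (p : (ι → ZMod 2) → ℝ)
    (h : ∀ i : ι, 𝔼 x : ι → ZMod 2, |av {i} p x - p x| ≤ ε) (C : Finset ι) :
    𝔼 x : ι → ZMod 2, |av C p x - p x| ≤ C.card * ε := by
  induction C using Finset.induction_on with
  | empty => simp
  | insert i C hi ih =>
    have h1 : ∀ x, av (insert i C) p x - p x
        = av C (fun y => av {i} p y - p y) x + (av C p x - p x) := by
      intro x
      rw [av_sub, av_av]
      have : C ∪ {i} = insert i C := by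
        rw [Finset.union_comm]; rfl
      rw [this]
      ring
    calc 𝔼 x : ι → ZMod 2, |av (insert i C) p x - p x|
        ≤ 𝔼 x : ι → ZMod 2, (|av C (fun y => av {i} p y - p y) x| + |av C p x - p x|) := by
          refine Finset.expect_le_expect fun x _ => ?_
          rw [h1]
          exact abs_add_le _ _
      _ = 𝔼 x : ι → ZMod 2, |av C (fun y => av {i} p y - p y) x|
          + 𝔼 x : ι → ZMod 2, |av C p x - p x| := Finset.expect_add_distrib _ _ _
      _ ≤ ε + C.card * ε := by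
          refine add_le_add ?_ ih
          exact (expect_abs_av_le C _).trans (h i)
      _ = ((insert i C).card : ℝ) * ε := by
          rw [Finset.card_insert_of_notMem hi]
          push_cast
          ring

/-- The potential. -/
noncomputable def W (p : (ι → ZMod 2) → ℝ) (J : Finset ι) (a : ι → ZMod 2) : ℝ :=
  𝔼 z : ι → ZMod 2, |av J p (J.piecewise a z) - p (J.piecewise a z)|

lemma W_nonneg (p : (ι → ZMod 2) → ℝ) (J : Finset ι) (a : ι → ZMod 2) : 0 ≤ W p J a :=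
  Finset.expect_nonneg fun _ _ => abs_nonneg _

lemma W_empty (p : (ι → ZMod 2) → ℝ) (a : ι → ZMod 2) : W p ∅ a = 0 := by
  unfold W
  simp

lemma W_eq_one {p : (ι → ZMod 2) → ℝ} (hp0 : ∀ x, 0 ≤ p x) (hp1 : 𝔼 x : ι → ZMod 2, p x = 1)
    {J : Finset ι} {a : ι → ZMod 2} (hvan : ∀ x : ι → ZMod 2, (∀ i ∈ J, x i = a i) → p x = 0) :
    W p J a = 1 := by
  unfold W
  have : ∀ z : ι → ZMod 2, |av J p (J.piecewise a z) - p (J.piecewise a z)|
      = 𝔼 w : ι → ZMod 2, p (J.piecewise w z) := by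
    intro z
    rw [hvan (J.piecewise a z) (fun i hi => by simp [hi]), sub_zero, av_piecewise, abs_of_nonneg]
    · rfl
    · exact Finset.expect_nonneg fun _ _ => hp0 _
  rw [Finset.expect_congr rfl fun z _ => this z, expect_piecewise', hp1]

lemma W_step {ε : ℝ} {p : (ι → ZMod 2) → ℝ}
    (h : ∀ i : ι, 𝔼 x : ι → ZMod 2, |av {i} p x - p x| ≤ ε) (J C : Finset ι)
    (a : ι → ZMod 2) :
    𝔼 y : ι → ZMod 2, W p (J ∪ C) (J.piecewise a y) ≤ W p J a + C.card * ε := by
  unfold W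
  have h1 : 𝔼 y : ι → ZMod 2, 𝔼 z : ι → ZMod 2,
      |av (J ∪ C) p ((J ∪ C).piecewise (J.piecewise a y) z) -
        p ((J ∪ C).piecewise (J.piecewise a y) z)|
      = 𝔼 z : ι → ZMod 2, |av (J ∪ C) p (J.piecewise a z) - p (J.piecewise a z)| := by
    rw [← expect_piecewise (J ∪ C)
      (fun z => |av (J ∪ C) p (J.piecewise a z) - p (J.piecewise a z)|)]
    refine Finset.expect_congr rfl fun y _ => Finset.expect_congr rfl fun z _ => ?_
    have : (J ∪ C).piecewise (J.piecewise a y) z = J.piecewise a ((J ∪ C).piecewise y z) := by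
      funext i
      by_cases hJ : i ∈ J
      · simp [hJ]
      · by_cases hC : i ∈ C <;> simp [hC, hJ]
    rw [this]
  rw [h1]
  have h2 : ∀ z : ι → ZMod 2, |av (J ∪ C) p (J.piecewise a z) - p (J.piecewise a z)|
      ≤ |av J p (J.piecewise a z) - p (J.piecewise a z)|
        + |av J (fun y => av C p y - p y) z| := by
    intro z
    have : av (J ∪ C) p (J.piecewise a z) - p (J.piecewise a z)
        = (av J p (J.piecewise a z) - p (J.piecewise a z))
          + av J (fun y => av C p y - p y) z := by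
      rw [av_sub, av_av, ← av_piecewise J p a z]
      have h3 : av (J ∪ C) p (J.piecewise a z) = av (J ∪ C) p z := by
        rw [← av_av, ← av_av, av_piecewise]
      rw [h3]
      ring
    rw [this]
    exact abs_add_le _ _
  calc 𝔼 z : ι → ZMod 2, |av (J ∪ C) p (J.piecewise a z) - p (J.piecewise a z)|
      ≤ 𝔼 z : ι → ZMod 2, (|av J p (J.piecewise a z) - p (J.piecewise a z)|
        + |av J (fun y => av C p y - p y) z|) := Finset.expect_le_expect fun z _ => h2 z
    _ = 𝔼 z : ι → ZMod 2, |av J p (J.piecewise a z) - p (J.piecewise a z)|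
        + 𝔼 z : ι → ZMod 2, |av J (fun y => av C p y - p y) z| := Finset.expect_add_distrib _ _ _
    _ ≤ _ := by
        refine add_le_add le_rfl ?_
        exact (expect_abs_av_le J _).trans (expect_abs_av_sub_le p h C)

/-- Main induction. -/
theorem main_induction {S T : Set ((ι → ZMod 2) → ℂ)} {d : ℕ}
    (hT : ∀ g ∈ T, DegLE d g) (hdis : ∀ f ∈ S, ∀ g ∈ T, ∀ x, f x * g x = 0)
    {p q : (ι → ZMod 2) → ℝ} {ε : ℝ} (hε : 0 ≤ ε)
    (hp0 : ∀ x, 0 ≤ p x) (hp1 : 𝔼 x : ι → ZMod 2, p x = 1)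
    (hpS : ∀ x, (∀ f ∈ S, f x = 0) → p x = 0)
    (hpε : ∀ i : ι, 𝔼 x : ι → ZMod 2, |av {i} p x - p x| ≤ ε)
    (hq0 : ∀ x, 0 ≤ q x) (hq1 : 𝔼 x : ι → ZMod 2, q x = 1)
    (hqT : ∀ x, (∀ g ∈ T, g x = 0) → q x = 0)
    (hqε : ∀ i : ι, 𝔼 x : ι → ZMod 2, |av {i} q x - q x| ≤ ε) (e : ℕ) :
    ∀ (J : Finset ι) (a : ι → ZMod 2), DegOn S J a e →
      1 - 2 * ε * ((d : ℝ) ^ 2 * (e * (e + 1))) ≤ W p J a + W q J a := by
  induction e with
  | zero =>
    intro J a hJ
    have hgoal : (1 : ℝ) ≤ W p J a + W q J a := by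
      by_cases hex : ∃ g ∈ T, ∃ x₀ : ι → ZMod 2, (∀ i ∈ J, x₀ i = a i) ∧ g x₀ ≠ 0
      · obtain ⟨g, hg, x₀, hx₀, hgx₀⟩ := hex
        obtain ⟨C, x, hx, hC, hvan⟩ := exists_cert (hT g hg)
          (fun f hf x => hdis f hf g hg x) hJ hx₀ hgx₀
        have hC0 : C = ∅ := by
          rw [mul_zero] at hC
          exact Finset.card_eq_zero.1 (Nat.le_zero.1 hC)
        subst hC0
        have : W p J a = 1 := W_eq_one hp0 hp1 (fun y hy => hpS y (fun f hf => hvan f hf y (by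
          intro i hi
          rw [Finset.union_empty] at hi
          rw [hy i hi, hx i hi])))
        have := W_nonneg q J a
        linarith
      · push Not at hex
        have : W q J a = 1 := W_eq_one hq0 hq1 (fun y hy => hqT y (fun g hg => hex g hg y hy))
        have := W_nonneg p J a
        linarith
    simpa using hgoal
  | succ e ih =>
    intro J a hJ
    by_cases hex : ∃ g ∈ T, ∃ x₀ : ι → ZMod 2, (∀ i ∈ J, x₀ i = a i) ∧ g x₀ ≠ 0
    · obtain ⟨g, hg, x₀, hx₀, hgx₀⟩ := hex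
      obtain ⟨C, x, hx, hC, hvan⟩ := exists_cert (hT g hg)
        (fun f hf x => hdis f hf g hg x) hJ hx₀ hgx₀
      have h1 : ∀ y : ι → ZMod 2, 1 - 2 * ε * ((d : ℝ) ^ 2 * (e * (e + 1)))
          ≤ W p (J ∪ C) (J.piecewise a y) + W q (J ∪ C) (J.piecewise a y) := by
        intro y
        refine ih _ _ (degOn_reduce hJ C x hx hvan _ (fun i hi => by simp [hi]))
      have h2 : 1 - 2 * ε * ((d : ℝ) ^ 2 * (e * (e + 1)))
          ≤ 𝔼 y : ι → ZMod 2, (W p (J ∪ C) (J.piecewise a y) + W q (J ∪ C) (J.piecewise a y)) :=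
        Finset.le_expect Finset.univ_nonempty fun y _ => h1 y
      rw [Finset.expect_add_distrib] at h2
      have h3 := W_step hpε J C a
      have h4 := W_step hqε J C a
      have hCr : (C.card : ℝ) ≤ 2 * (d : ℝ) ^ 2 * (e + 1) := by exact_mod_cast hC
      have h5 : (C.card : ℝ) * ε ≤ 2 * (d : ℝ) ^ 2 * (e + 1) * ε :=
        mul_le_mul_of_nonneg_right hCr hε
      push_cast
      nlinarith
    · push Not at hex
      have : W q J a = 1 := W_eq_one hq0 hq1 (fun y hy => hqT y (fun g hg => hex g hg y hy))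
      have h6 := W_nonneg p J a
      have h7 : 0 ≤ 2 * ε * ((d : ℝ) ^ 2 * (((e + 1 : ℕ) : ℝ) * (((e + 1 : ℕ) : ℝ) + 1))) := by
        positivity
      linarith

theorem main_bound {S T : Set ((ι → ZMod 2) → ℂ)} {d : ℕ}
    (hS : ∀ f ∈ S, DegLE d f)
    (hT : ∀ g ∈ T, DegLE d g) (hdis : ∀ f ∈ S, ∀ g ∈ T, ∀ x, f x * g x = 0)
    {p q : (ι → ZMod 2) → ℝ} {ε : ℝ} (hε : 0 ≤ ε)
    (hp0 : ∀ x, 0 ≤ p x) (hp1 : 𝔼 x : ι → ZMod 2, p x = 1)
    (hpS : ∀ x, (∀ f ∈ S, f x = 0) → p x = 0)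
    (hpε : ∀ i : ι, 𝔼 x : ι → ZMod 2, |av {i} p x - p x| ≤ ε)
    (hq0 : ∀ x, 0 ≤ q x) (hq1 : 𝔼 x : ι → ZMod 2, q x = 1)
    (hqT : ∀ x, (∀ g ∈ T, g x = 0) → q x = 0)
    (hqε : ∀ i : ι, 𝔼 x : ι → ZMod 2, |av {i} q x - q x| ≤ ε) :
    1 ≤ 2 * ε * ((d : ℝ) ^ 2 * (d * (d + 1))) := by
  have := main_induction hT hdis hε hp0 hp1 hpS hpε hq0 hq1 hqT hqε d ∅ 0
    (fun f hf U _ hU x _ => (hS f hf).D_eq_zero hU x)
  rw [W_empty, W_empty] at this
  linarith

end Pool.Agent.H627R2.Pcc
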