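import Mathlib

/-!
# A Markov type bound for bounded low degree functions on a cube

A function `G` on the subsets of a finite set `K`, of degree at most `d`, bounded by `1` in absolute
value, with `G ∅ = 1` and `G {j} = 0` for all `j ∈ K`, forces `#K ≤ 2 d ^ 2`.
-/

set_option autoImplicit false

namespace Pool.Agent.H627R2.Pcc

open Finset Polynomial

/-- Möbius coefficient. -/
noncomputable def moeb {κ : Type*} [DecidableEq κ] (G : Finset κ → ℝ) (T : Finset κ) : ℝ :=
  (-1) ^ T.card * ∑ U ∈ T.powerset, (-1) ^ U.card * G U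

lemma sum_moeb {κ : Type*} [DecidableEq κ] (K : Finset κ) (G : Finset κ → ℝ) (θ : ℝ) :
    ∑ T ∈ K.powerset, moeb G T * θ ^ T.card
      = ∑ U ∈ K.powerset, G U * (θ ^ U.card * (1 - θ) ^ (K.card - U.card)) := by
  classical
  have h1 : ∀ U ∈ K.powerset, (1 - θ) ^ (K.card - U.card)
      = ∑ V ∈ (K \ U).powerset, (-θ) ^ V.card := by
    intro U hU
    rw [Finset.mem_powerset] at hU
    have h := Finset.sum_pow_mul_eq_add_pow (-θ) (1 : ℝ) (K \ U)
    simp only [one_pow, mul_one] at h
    rw [h, Finset.card_sdiff_of_subset hU]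
    congr 1
    ring
  have h2 : ∑ U ∈ K.powerset, G U * (θ ^ U.card * (1 - θ) ^ (K.card - U.card))
      = ∑ U ∈ K.powerset, ∑ V ∈ (K \ U).powerset, G U * (θ ^ U.card * (-θ) ^ V.card) := by
    refine Finset.sum_congr rfl fun U hU => ?_
    rw [h1 U hU, Finset.mul_sum, Finset.mul_sum]
  rw [h2]
  have h3 : ∑ T ∈ K.powerset, moeb G T * θ ^ T.card
      = ∑ T ∈ K.powerset, ∑ U ∈ T.powerset, G U * (θ ^ U.card * (-θ) ^ (T.card - U.card)) := by
    refine Finset.sum_congr rfl fun T hT => ?_
    unfold moeb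
    rw [mul_assoc, Finset.sum_mul, Finset.mul_sum]
    refine Finset.sum_congr rfl fun U hU => ?_
    rw [Finset.mem_powerset] at hU
    have hc : U.card ≤ T.card := Finset.card_le_card hU
    obtain ⟨k, hk⟩ := Nat.exists_eq_add_of_le hc
    rw [hk, Nat.add_sub_cancel_left, neg_pow θ k, pow_add, pow_add]
    have : (-1 : ℝ) ^ U.card * (-1) ^ U.card = 1 := by
      rw [← mul_pow]; norm_num
    calc (-1 : ℝ) ^ U.card * (-1) ^ k * ((-1) ^ U.card * G U * (θ ^ U.card * θ ^ k))
        = ((-1 : ℝ) ^ U.card * (-1) ^ U.card) * (G U * (θ ^ U.card * ((-1) ^ k * θ ^ k))) := by ring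
      _ = _ := by rw [this, one_mul]
  rw [h3]
  rw [Finset.sum_sigma', Finset.sum_sigma']
  refine Finset.sum_nbij' (fun p => ⟨p.2, p.1 \ p.2⟩) (fun p => ⟨p.1 ∪ p.2, p.1⟩) ?_ ?_ ?_ ?_ ?_
  · rintro ⟨T, U⟩ h
    simp only [Finset.mem_sigma, Finset.mem_powerset] at h ⊢
    exact ⟨h.2.trans h.1, Finset.sdiff_subset_sdiff h.1 le_rfl⟩
  · rintro ⟨U, V⟩ h
    simp only [Finset.mem_sigma, Finset.mem_powerset] at h ⊢
    exact ⟨Finset.union_subset h.1 (h.2.trans Finset.sdiff_subset), Finset.subset_union_left⟩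
  · rintro ⟨T, U⟩ h
    simp only [Finset.mem_sigma, Finset.mem_powerset] at h ⊢
    rw [Finset.union_sdiff_of_subset h.2]
  · rintro ⟨U, V⟩ h
    simp only [Finset.mem_sigma, Finset.mem_powerset] at h ⊢
    have hd : Disjoint U V := by
      have := h.2
      rw [Finset.disjoint_left]
      intro a ha hb
      exact (Finset.mem_sdiff.1 (this hb)).2 ha
    have : (U ∪ V) \ U = V := by
      rw [Finset.union_sdiff_left, Finset.sdiff_eq_self_of_disjoint hd.symm]
    simp [this]
  · rintro ⟨T, U⟩ h
    simp only [Finset.mem_sigma, Finset.mem_powerset] at h ⊢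
    rw [Finset.card_sdiff_of_subset h.2]

/-- The Markov type bound. -/
theorem markov_cube {κ : Type*} [DecidableEq κ] (d : ℕ) (K : Finset κ) (G : Finset κ → ℝ)
    (hb : ∀ U ⊆ K, |G U| ≤ 1) (h0 : G ∅ = 1) (h1 : ∀ j ∈ K, G {j} = 0)
    (hdeg : ∀ T ⊆ K, d < T.card → ∑ U ∈ T.powerset, (-1) ^ U.card * G U = 0) :
    K.card ≤ 2 * d ^ 2 := by
  classical
  -- the polynomial
  let P : ℝ[X] := ∑ T ∈ K.powerset, C (moeb G T) * (C (1/2) - C (1/2) * X) ^ T.card
  have heval : ∀ u : ℝ, P.eval u = ∑ T ∈ K.powerset, moeb G T * ((1 - u) / 2) ^ T.card := by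
    intro u
    simp only [P, Polynomial.eval_finsetSum, Polynomial.eval_mul, Polynomial.eval_C,
      Polynomial.eval_pow, Polynomial.eval_sub, Polynomial.eval_X]
    refine Finset.sum_congr rfl fun T _ => ?_
    congr 2
    ring
  have hdegP : P.degree ≤ d := by
    refine (Polynomial.degree_sum_le _ _).trans (Finset.sup_le fun T hT => ?_)
    by_cases hTd : d < T.card
    · have : moeb G T = 0 := by
        unfold moeb
        rw [hdeg T (Finset.mem_powerset.1 hT) hTd, mul_zero]
      rw [this]
      simp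
    · push Not at hTd
      refine (Polynomial.degree_mul_le _ _).trans ?_
      have hA : (C (moeb G T) : ℝ[X]).degree ≤ 0 := Polynomial.degree_C_le
      have hB : ((C (1/2) - C (1/2) * X : ℝ[X]) ^ T.card).degree ≤ (T.card : WithBot ℕ) := by
        refine (Polynomial.degree_pow_le _ _).trans ?_
        have : (C (1/2) - C (1/2) * X : ℝ[X]).degree ≤ 1 := by
          refine (Polynomial.degree_sub_le _ _).trans (max_le ?_ ?_)
          · exact Polynomial.degree_C_le.trans (by norm_num)
          · exact (Polynomial.degree_C_mul_X_le _)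
        calc T.card • (C (1/2) - C (1/2) * X : ℝ[X]).degree ≤ T.card • (1 : WithBot ℕ) :=
              nsmul_le_nsmul_right this _
          _ = _ := by simp
      calc (C (moeb G T) : ℝ[X]).degree + ((C (1/2) - C (1/2) * X : ℝ[X]) ^ T.card).degree
          ≤ 0 + (T.card : WithBot ℕ) := add_le_add hA hB
        _ ≤ d := by rw [zero_add]; exact_mod_cast hTd
  have hbd : ∀ x ∈ Set.Icc (-1 : ℝ) 1, |P.eval x| ≤ 1 := by
    intro x hx
    rw [heval, sum_moeb K G]
    have ha : 0 ≤ (1 - x) / 2 := by linarith [hx.2]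
    have hb' : 0 ≤ 1 - (1 - x) / 2 := by linarith [hx.1]
    refine (Finset.abs_sum_le_sum_abs _ _).trans ?_
    calc ∑ U ∈ K.powerset, |G U * (((1 - x) / 2) ^ U.card * (1 - (1 - x) / 2) ^ (K.card - U.card))|
        ≤ ∑ U ∈ K.powerset, ((1 - x) / 2) ^ U.card * (1 - (1 - x) / 2) ^ (K.card - U.card) := by
          refine Finset.sum_le_sum fun U hU => ?_
          rw [abs_mul, abs_of_nonneg (mul_nonneg (pow_nonneg ha _) (pow_nonneg hb' _))]
          exact mul_le_of_le_one_left (mul_nonneg (pow_nonneg ha _) (pow_nonneg hb' _))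
            (hb U (Finset.mem_powerset.1 hU))
      _ = 1 := by
          rw [Finset.sum_pow_mul_eq_add_pow]
          simp
  have hM := Polynomial.Chebyshev.eval_iterate_derivative_le_of_forall_abs_le_one
    (n := d) (P := P) (k := 1) (x := 1) le_rfl hdegP hbd
  have hT : (derivative^[1] (Polynomial.Chebyshev.T ℝ (d : ℤ))).eval 1 = (d : ℝ) ^ 2 := by
    have := Polynomial.Chebyshev.derivative_T_eval_one (R := ℝ) (d : ℤ)
    simpa using this
  have hP' : (derivative^[1] P).eval 1 = (K.card : ℝ) / 2 := by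
    have hd : derivative P = ∑ T ∈ K.powerset, C (moeb G T) *
        (C (T.card : ℝ) * (C (1/2) - C (1/2) * X) ^ (T.card - 1) * (- C (1/2))) := by
      simp only [P, Polynomial.derivative_sum]
      refine Finset.sum_congr rfl fun T _ => ?_
      rw [Polynomial.derivative_C_mul, Polynomial.derivative_pow]
      simp
    rw [Function.iterate_one, hd]
    simp only [Polynomial.eval_finsetSum, Polynomial.eval_mul, Polynomial.eval_C,
      Polynomial.eval_pow, Polynomial.eval_sub, Polynomial.eval_X, Polynomial.eval_neg]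
    have hterm : ∀ T ∈ K.powerset, moeb G T * ((T.card : ℝ) * (1/2 - 1/2 * 1) ^ (T.card - 1) *
        (-(1/2))) = if T.card = 1 then - moeb G T / 2 else 0 := by
      intro T _
      split_ifs with h
      · rw [h]; norm_num; ring
      · by_cases hz : T.card = 0
        · rw [hz]; simp
        · have : T.card - 1 ≠ 0 := by omega
          rw [show (1/2 - 1/2 * 1 : ℝ) = 0 by norm_num, zero_pow this]
          ring
    rw [Finset.sum_congr rfl hterm, ← Finset.sum_filter]
    have hset : (K.powerset.filter fun T => T.card = 1) = K.image (fun j => ({j} : Finset κ)) := by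
      ext T
      simp only [Finset.mem_filter, Finset.mem_powerset, Finset.mem_image, Finset.card_eq_one]
      constructor
      · rintro ⟨hTK, a, rfl⟩
        exact ⟨a, hTK (Finset.mem_singleton_self a), rfl⟩
      · rintro ⟨a, ha, rfl⟩
        exact ⟨Finset.singleton_subset_iff.2 ha, a, rfl⟩
    rw [hset, Finset.sum_image (fun a _ b _ h => Finset.singleton_injective h)]
    have hm : ∀ j ∈ K, - moeb G {j} / 2 = 1 / 2 := by
      intro j hj
      unfold moeb
      have hps : ({j} : Finset κ).powerset = {∅, {j}} := by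
        ext U
        simp [Finset.subset_singleton_iff]
      rw [hps, Finset.sum_pair (by
        intro h
        have := congrArg Finset.card h
        simp at this)]
      simp [h0, h1 j hj]
    rw [Finset.sum_congr rfl hm, Finset.sum_const, nsmul_eq_mul]
    ring
  rw [hP', hT] at hM
  have : (K.card : ℝ) ≤ 2 * (d : ℝ) ^ 2 := by linarith
  exact_mod_cast this

end Pool.Agent.H627R2.Pcc
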