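import Pool.Agent.H627R2.PccMarkov

/-!
# Structure of two families of low degree functions with disjoint supports
-/

set_option autoImplicit false

namespace Pool.Agent.H627R2.Pcc

open Finset

variable {ι : Type*} [DecidableEq ι]

/-- flipc the coordinates in `T`. -/
def flipc (x : ι → ZMod 2) (T : Finset ι) : ι → ZMod 2 := fun i => if i ∈ T then x i + 1 else x i

lemma flipc_apply_mem (x : ι → ZMod 2) {T : Finset ι} {i : ι} (h : i ∈ T) :
    flipc x T i = x i + 1 := by simp [flipc, h]

lemma flipc_apply_notMem (x : ι → ZMod 2) {T : Finset ι} {i : ι} (h : i ∉ T) :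
    flipc x T i = x i := by simp [flipc, h]

@[simp] lemma flipc_empty (x : ι → ZMod 2) : flipc x ∅ = x := by
  funext i; simp [flipc]

lemma zmod2_add_self (a : ZMod 2) : a + a = 0 := by
  revert a; decide

lemma flipc_flipc_self (x : ι → ZMod 2) (T : Finset ι) : flipc (flipc x T) T = x := by
  funext i
  by_cases h : i ∈ T
  · simp only [flipc, h, if_true]
    rw [add_assoc, zmod2_add_self, add_zero]
  · simp [flipc, h]

lemma flipc_insert (x : ι → ZMod 2) {U : Finset ι} {i : ι} (h : i ∉ U) :
    flipc x (insert i U) = flipc (flipc x {i}) U := by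
  funext j
  by_cases hj : j = i
  · subst hj
    simp [flipc, h]
  · by_cases hU : j ∈ U
    · simp [flipc, hj, hU]
    · simp [flipc, hj, hU]

lemma flipc_comm (x : ι → ZMod 2) (U V : Finset ι) : flipc (flipc x U) V = flipc (flipc x V) U := by
  funext j
  by_cases h1 : j ∈ U <;> by_cases h2 : j ∈ V <;> simp [flipc, h1, h2]

/-- alternating sum of `f` over the cube `x + {0,1}^T` -/
noncomputable def D (T : Finset ι) (f : (ι → ZMod 2) → ℂ) (x : ι → ZMod 2) : ℂ :=
  ∑ U ∈ T.powerset, (-1) ^ U.card * f (flipc x U)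

lemma D_insert {T : Finset ι} {i : ι} (h : i ∉ T) (f : (ι → ZMod 2) → ℂ) (x : ι → ZMod 2) :
    D (insert i T) f x = D T f x - D T f (flipc x {i}) := by
  unfold D
  rw [Finset.sum_powerset_insert h, sub_eq_add_neg, ← Finset.sum_neg_distrib]
  congr 1
  refine Finset.sum_congr rfl fun U hU => ?_
  have hi : i ∉ U := fun hc => h (Finset.mem_powerset.1 hU hc)
  rw [Finset.card_insert_of_notMem hi, flipc_insert x hi, pow_succ]
  ring

/-- the blockwise alternating sums over more than `d` disjoint blocks vanish -/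
def DegLE (d : ℕ) (f : (ι → ZMod 2) → ℂ) : Prop :=
  ∀ K : Finset (Finset ι), (K : Set (Finset ι)).PairwiseDisjoint id → d < K.card →
    ∀ x, ∑ U ∈ K.powerset, (-1) ^ U.card * f (flipc x (U.biUnion id)) = 0

lemma DegLE.D_eq_zero {d : ℕ} {f : (ι → ZMod 2) → ℂ} (h : DegLE d f) {T : Finset ι}
    (hT : d < T.card) (x : ι → ZMod 2) : D T f x = 0 := by
  have hinj : Function.Injective (fun i : ι => ({i} : Finset ι)) := Finset.singleton_injective
  have := h (T.map ⟨fun i => {i}, hinj⟩) (by
    intro A hA B hB hAB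
    simp only [Finset.coe_map, Function.Embedding.coeFn_mk, Set.mem_image, Finset.mem_coe] at hA hB
    obtain ⟨a, _, rfl⟩ := hA
    obtain ⟨b, _, rfl⟩ := hB
    simp only [Function.onFun, id]
    rw [Finset.disjoint_singleton]
    rintro rfl
    exact hAB rfl) (by rwa [Finset.card_map]) x
  rw [← this]
  unfold D
  symm
  refine Finset.sum_nbij' (fun U : Finset (Finset ι) => U.biUnion id)
    (fun V : Finset ι => V.map ⟨fun i => {i}, hinj⟩) ?_ ?_ ?_ ?_ ?_
  · intro U hU
    rw [Finset.mem_powerset] at hU ⊢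
    intro i hi
    rw [Finset.mem_biUnion] at hi
    obtain ⟨A, hA, hi⟩ := hi
    have := hU hA
    rw [Finset.mem_map] at this
    obtain ⟨a, ha, rfl⟩ := this
    simp only [Function.Embedding.coeFn_mk, id, Finset.mem_singleton] at hi
    rwa [hi]
  · intro V hV
    rw [Finset.mem_powerset] at hV ⊢
    exact Finset.map_subset_map.2 hV
  · intro U hU
    rw [Finset.mem_powerset] at hU
    ext A
    simp only [Finset.mem_map, Finset.mem_biUnion, id, Function.Embedding.coeFn_mk]
    constructor
    · rintro ⟨a, ⟨B, hB, haB⟩, rfl⟩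
      have := hU hB
      rw [Finset.mem_map] at this
      obtain ⟨b, hb, rfl⟩ := this
      simp only [Function.Embedding.coeFn_mk, Finset.mem_singleton] at haB hB
      rwa [haB]
    · intro hA
      have := hU hA
      rw [Finset.mem_map] at this
      obtain ⟨b, hb, rfl⟩ := this
      exact ⟨b, ⟨_, hA, by simp⟩, rfl⟩
  · intro V hV
    ext a
    simp
  · intro U hU
    rw [Finset.mem_powerset] at hU
    have hcard : (U.biUnion id).card = U.card := by
      rw [Finset.card_biUnion]
      · rw [Finset.card_eq_sum_ones]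
        refine Finset.sum_congr rfl fun A hA => ?_
        have := hU hA
        rw [Finset.mem_map] at this
        obtain ⟨b, hb, rfl⟩ := this
        simp
      · intro A hA B hB hAB
        have h1 := hU hA
        have h2 := hU hB
        rw [Finset.mem_map] at h1 h2
        obtain ⟨a, _, rfl⟩ := h1
        obtain ⟨b, _, rfl⟩ := h2
        have hab : a ≠ b := by
          rintro rfl
          exact hAB rfl
        exact Finset.disjoint_singleton.2 hab
    rw [hcard]

/-- all functions of `S` have degree at most `e` on the subcube of the points agreeing with `a`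
on `J`. -/
def DegOn (S : Set ((ι → ZMod 2) → ℂ)) (J : Finset ι) (a : ι → ZMod 2) (e : ℕ) : Prop :=
  ∀ f ∈ S, ∀ T : Finset ι, Disjoint T J → e < T.card →
    ∀ x : ι → ZMod 2, (∀ i ∈ J, x i = a i) → D T f x = 0

/-- Degree reduction. -/
lemma degOn_reduce {S : Set ((ι → ZMod 2) → ℂ)} {J : Finset ι} {a : ι → ZMod 2} {e : ℕ}
    (h : DegOn S J a (e + 1)) (C : Finset ι) (x : ι → ZMod 2) (hx : ∀ i ∈ J, x i = a i)
    (hvan : ∀ f ∈ S, ∀ y : ι → ZMod 2, (∀ i ∈ J ∪ C, y i = x i) → f y = 0)
    (y : ι → ZMod 2) (hy : ∀ i ∈ J, y i = a i) : DegOn S (J ∪ C) y e := by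
  intro f hf T hT hcard z hz
  rw [Finset.disjoint_union_right] at hT
  have hzJ : ∀ i ∈ J, z i = a i := fun i hi => by
    rw [hz i (Finset.mem_union_left _ hi), hy i hi]
  rcases Nat.lt_or_ge (e + 1) T.card with hlt | hge
  · exact h f hf T hT.1 hlt z hzJ
  -- invariance
  have hinv : ∀ W : Finset ι, Disjoint W J → Disjoint W T →
      ∀ w : ι → ZMod 2, (∀ i ∈ J, w i = a i) → D T f (flipc w W) = D T f w := by
    intro W
    induction W using Finset.induction_on with
    | empty => intro _ _ w _; simp
    | insert i W hi ih =>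
      intro hWJ hWT w hw
      rw [Finset.disjoint_insert_left] at hWJ hWT
      have hi1 : ∀ k ∈ J, flipc w {i} k = a k := by
        intro k hk
        rw [flipc_apply_notMem, hw k hk]
        rw [Finset.mem_singleton]
        rintro rfl
        exact hWJ.1 hk
      rw [flipc_insert w hi, ih hWJ.2 hWT.2 _ hi1]
      have h0 := h f hf (insert i T) (by
        rw [Finset.disjoint_insert_left]; exact ⟨hWJ.1, hT.1⟩) (by
        rw [Finset.card_insert_of_notMem hWT.1]; omega) w hw
      rw [D_insert hWT.1] at h0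
      exact (sub_eq_zero.1 h0).symm
  let W := C.filter fun i => z i ≠ x i
  have hWJ : Disjoint W J := by
    rw [Finset.disjoint_left]
    intro i hi hiJ
    simp only [W, Finset.mem_filter] at hi
    exact hi.2 (by rw [hzJ i hiJ, hx i hiJ])
  have hWT : Disjoint W T := by
    rw [Finset.disjoint_left]
    intro i hi hiT
    simp only [W, Finset.mem_filter] at hi
    exact (Finset.disjoint_left.1 hT.2) hiT hi.1
  rw [← hinv W hWJ hWT z hzJ]
  unfold D
  refine Finset.sum_eq_zero fun U hU => ?_
  rw [hvan f hf, mul_zero]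
  intro i hi
  have hiU : i ∉ U := by
    intro hiU
    have hiT := Finset.mem_powerset.1 hU hiU
    rcases Finset.mem_union.1 hi with h' | h'
    · exact Finset.disjoint_left.1 hT.1 hiT h'
    · exact Finset.disjoint_left.1 hT.2 hiT h'
  rw [flipc_apply_notMem _ hiU]
  by_cases hiW : i ∈ W
  · rw [flipc_apply_mem _ hiW]
    simp only [W, Finset.mem_filter] at hiW
    have : ∀ s t : ZMod 2, s ≠ t → s + 1 = t := by decide
    exact this _ _ hiW.2
  · rw [flipc_apply_notMem _ hiW]
    by_contra hne
    rcases Finset.mem_union.1 hi with h' | h'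
    · exact hne (by rw [hzJ i h', hx i h'])
    · exact hiW (by simp only [W, Finset.mem_filter]; exact ⟨h', hne⟩)

variable [Fintype ι]

/-- Existence of a small certificate. -/
lemma exists_cert {S : Set ((ι → ZMod 2) → ℂ)} {d e : ℕ} {g : (ι → ZMod 2) → ℂ}
    (hg : DegLE d g) (hdis : ∀ f ∈ S, ∀ x, f x * g x = 0)
    {J : Finset ι} {a : ι → ZMod 2} (h : DegOn S J a e)
    {x₀ : ι → ZMod 2} (hx₀ : ∀ i ∈ J, x₀ i = a i) (hgx₀ : g x₀ ≠ 0) :
    ∃ (C : Finset ι) (x : ι → ZMod 2), (∀ i ∈ J, x i = a i) ∧ C.card ≤ 2 * d ^ 2 * e ∧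
      ∀ f ∈ S, ∀ y : ι → ZMod 2, (∀ i ∈ J ∪ C, y i = x i) → f y = 0 := by
  classical
  -- maximiser of `‖g‖`
  obtain ⟨x, hxm, hmax⟩ := Finset.exists_max_image
    ((Finset.univ : Finset (ι → ZMod 2)).filter fun x => ∀ i ∈ J, x i = a i) (fun x => ‖g x‖)
    ⟨x₀, by simpa using hx₀⟩
  simp only [Finset.mem_filter, Finset.mem_univ, true_and] at hxm hmax
  have hgx : g x ≠ 0 := by
    intro h0
    have := hmax x₀ hx₀
    rw [h0, norm_zero] at this
    exact hgx₀ (norm_le_zero_iff.1 this)
  have hfx : ∀ f ∈ S, f x = 0 := fun f hf => by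
    rcases mul_eq_zero.1 (hdis f hf x) with h | h
    · exact h
    · exact absurd h hgx
  -- minimal blocks
  let IsMin : Finset ι → Prop := fun B => Disjoint B J ∧ (∃ f ∈ S, f (flipc x B) ≠ 0) ∧
    ∀ B' ⊂ B, ∀ f ∈ S, f (flipc x B') = 0
  have hMincard : ∀ B, IsMin B → B.card ≤ e := by
    rintro B ⟨hBJ, ⟨f, hf, hfB⟩, hmin⟩
    by_contra hlt
    push Not at hlt
    have h0 := h f hf B hBJ hlt x hxm
    unfold D at h0
    rw [Finset.sum_eq_single B] at h0
    · rcases mul_eq_zero.1 h0 with h1 | h1
      · exact absurd h1 (pow_ne_zero _ (by norm_num))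
      · exact hfB h1
    · intro U hU hUB
      rw [hmin U (lt_of_le_of_ne (Finset.mem_powerset.1 hU) hUB) f hf, mul_zero]
    · intro hB
      exact absurd (Finset.mem_powerset_self B) hB
  have hMinne : ∀ B, IsMin B → B.Nonempty := by
    rintro B ⟨hBJ, ⟨f, hf, hfB⟩, hmin⟩
    rw [Finset.nonempty_iff_ne_empty]
    rintro rfl
    exact hfB (by simpa using hfx f hf)
  -- maximal family of disjoint minimal blocks
  obtain ⟨K, hK, hKmax⟩ := Finset.exists_max_image
    ((Finset.univ : Finset (Finset (Finset ι))).filter fun K : Finset (Finset ι) =>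
      (∀ B ∈ K, IsMin B) ∧ (K : Set (Finset ι)).PairwiseDisjoint id)
    (fun K : Finset (Finset ι) => K.card)
    ⟨∅, by simp⟩
  simp only [Finset.mem_filter, Finset.mem_univ, true_and] at hK hKmax
  obtain ⟨hKm, hKd⟩ := hK
  -- `#K ≤ 2 d^2`
  have hKcard : K.card ≤ 2 * d ^ 2 := by
    refine markov_cube d K (fun U => ((g (flipc x (U.biUnion id))) / g x).re) ?_ ?_ ?_ ?_
    · intro U hU
      refine (Complex.abs_re_le_norm _).trans ?_
      rw [norm_div, div_le_one (norm_pos_iff.2 hgx)]
      refine hmax _ fun i hi => ?_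
      rw [flipc_apply_notMem, hxm i hi]
      rw [Finset.mem_biUnion]
      rintro ⟨B, hB, hiB⟩
      exact Finset.disjoint_left.1 (hKm B (hU hB)).1 hiB hi
    · simp [div_self hgx]
    · intro B hB
      obtain ⟨f, hf, hfB⟩ := (hKm B hB).2.1
      have : g (flipc x B) = 0 := by
        rcases mul_eq_zero.1 (hdis f hf (flipc x B)) with h | h
        · exact absurd h hfB
        · exact h
      simp [this]
    · intro T hT hcard
      have := hg T (hKd.subset (by exact_mod_cast hT)) hcard x
      have h2 : (∑ U ∈ T.powerset, (-1 : ℂ) ^ U.card * (g (flipc x (U.biUnion id)) / g x)) = 0 := by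
        simp_rw [← mul_div_assoc]
        rw [← Finset.sum_div, this, zero_div]
      have h3 := congrArg Complex.re h2
      rw [Complex.re_sum] at h3
      rw [Complex.zero_re] at h3
      rw [← h3]
      refine Finset.sum_congr rfl fun U _ => ?_
      rcases neg_one_pow_eq_or ℝ U.card with hs | hs
      · have hs' : ((-1 : ℂ)) ^ U.card = 1 := by
          have := congrArg (fun r : ℝ => (r : ℂ)) hs
          simpa using this
        rw [hs, hs']; simp
      · have hs' : ((-1 : ℂ)) ^ U.card = -1 := by
          have := congrArg (fun r : ℝ => (r : ℂ)) hs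
          simpa using this
        rw [hs, hs']; simp
  refine ⟨K.biUnion id, x, hxm, ?_, ?_⟩
  · calc (K.biUnion id).card ≤ ∑ B ∈ K, (id B).card := Finset.card_biUnion_le
      _ ≤ ∑ B ∈ K, e := Finset.sum_le_sum fun B hB => hMincard B (hKm B hB)
      _ = K.card * e := by rw [Finset.sum_const, smul_eq_mul]
      _ ≤ 2 * d ^ 2 * e := Nat.mul_le_mul_right _ hKcard
  · intro f hf y hy
    by_contra hfy
    -- the difference set
    let B₀ : Finset ι := Finset.univ.filter fun i => y i ≠ x i
    have hyB : flipc x B₀ = y := by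
      funext i
      by_cases hi : i ∈ B₀
      · rw [flipc_apply_mem _ hi]
        simp only [B₀, Finset.mem_filter, Finset.mem_univ, true_and] at hi
        have : ∀ s t : ZMod 2, s ≠ t → t + 1 = s := by decide
        exact this _ _ hi
      · rw [flipc_apply_notMem _ hi]
        simp only [B₀, Finset.mem_filter, Finset.mem_univ, true_and, not_not] at hi
        exact hi.symm
    obtain ⟨B, hB, hBmin⟩ := Finset.exists_min_image
      (B₀.powerset.filter fun B => ∃ f ∈ S, f (flipc x B) ≠ 0) (fun B => B.card)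
      ⟨B₀, by
        simp only [Finset.mem_filter, Finset.mem_powerset_self, true_and]
        exact ⟨f, hf, by rwa [hyB]⟩⟩
    simp only [Finset.mem_filter, Finset.mem_powerset] at hB hBmin
    have hdisJC : Disjoint B (J ∪ K.biUnion id) := by
      rw [Finset.disjoint_left]
      intro i hi hiJ
      have := hB.1 hi
      simp only [B₀, Finset.mem_filter, Finset.mem_univ, true_and] at this
      exact this (hy i hiJ)
    rw [Finset.disjoint_union_right] at hdisJC
    have hBM : IsMin B := by
      refine ⟨hdisJC.1, hB.2, ?_⟩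
      intro B' hB' f' hf'
      by_contra hne
      have := hBmin B' ⟨hB'.1.trans hB.1, f', hf', hne⟩
      exact absurd (Finset.card_lt_card hB') (not_lt.2 this)
    have hBK : B ∉ K := by
      intro hBK
      obtain ⟨i, hi⟩ := hMinne B hBM
      exact Finset.disjoint_left.1 hdisJC.2 hi (Finset.mem_biUnion.2 ⟨B, hBK, hi⟩)
    have := hKmax (insert B K) ⟨?_, ?_⟩
    · rw [Finset.card_insert_of_notMem hBK] at this
      omega
    · intro B' hB'
      rcases Finset.mem_insert.1 hB' with rfl | h'
      · exact hBM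
      · exact hKm B' h'
    · rw [Finset.coe_insert]
      refine hKd.insert fun B' hB' _ => ?_
      simp only [id]
      rw [Finset.disjoint_left]
      intro i hi hi'
      exact Finset.disjoint_left.1 hdisJC.2 hi (Finset.mem_biUnion.2 ⟨B', hB', hi'⟩)

end Pool.Agent.H627R2.Pcc
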